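import Pool.Agent.H83.FS.Stm

/-!
# ADJ: two unlinked tokens of one colour can be brought to adjacent vertices (for helper83)
-/

set_option autoImplicit false

namespace Pool.Agent.H230.FS83

open SimpleGraph Pool.Agent.H83.FS

theorem exists_step {V : Type} {Y : SimpleGraph V} (hY : Y.Connected) {x y : V} (hxy : x ≠ y) :
    ∃ p, Y.Adj x p ∧ Y.dist p y + 1 = Y.dist x y := by
  obtain ⟨w, hw⟩ := (hY.preconnected x y).exists_walk_length_eq_dist
  cases w with
  | nil => exact absurd rfl hxy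
  | @cons _ p _ h q =>
    refine ⟨p, h, ?_⟩
    rw [SimpleGraph.Walk.length_cons] at hw
    have h1 : Y.dist p y ≤ q.length := SimpleGraph.dist_le q
    have h2 : Y.dist x y ≤ Y.dist p y + 1 := by
      have h3 := hY.dist_triangle (u := x) (v := p) (w := y)
      have h4 : Y.dist x p = 1 := SimpleGraph.dist_eq_one_iff_adj.2 h
      omega
    omega

theorem adj (h : S_link) : S_adj := by
  intro V T _ _ _ Y col hY
  have key : ∀ (n : ℕ) (σ : T ≃ V) (b b' : T), D Y col σ b b' → Y.dist (σ b) (σ b') ≤ n →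
      ∃ (τ : T ≃ V) (b₁ b₁' : T), Rch Y col σ τ ∧ FSt Y col τ b₁ b₁' ∧ col b₁ = col b := by
    intro n
    induction n with
    | zero =>
      intro σ b b' hD hn
      exfalso
      have h1 : Y.dist (σ b) (σ b') = 0 := Nat.le_zero.1 hn
      have h2 := (hY.preconnected (σ b) (σ b')).dist_eq_zero_iff.1 h1
      exact hD.1 (σ.injective h2)
    | succ n ih =>
      intro σ b b' hD hn
      have hne : σ b ≠ σ b' := fun e => hD.1 (σ.injective e)
      obtain ⟨p, hp, hpd⟩ := exists_step hY hne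
      obtain ⟨x, rfl⟩ := σ.surjective p
      obtain ⟨hl1, hl2, hl3⟩ := h V T Y col
      by_cases hc : col b = col x
      · by_cases hx : x = b'
        · subst hx
          exact ⟨σ, b, x, Rch.refl _ _ _, ⟨hD, hp⟩, rfl⟩
        · have hbx : b ≠ x := fun e => hp.ne (by rw [e])
          by_cases hL : Lk Y col σ b x
          · have hL' : ¬ Lk Y col σ x b' := fun hL' =>
              hD.2.2 (hl3 σ b x b' hc (hc.symm.trans hD.2.1) hbx hx hD.1 hL hL')
            obtain ⟨τ, b₁, b₁', k1, k2, k3⟩ := ih σ x b' ⟨hx, hc.symm.trans hD.2.1, hL'⟩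
              (by omega)
            exact ⟨τ, b₁, b₁', k1, k2, k3.trans hc.symm⟩
          · exact ⟨σ, b, x, Rch.refl _ _ _, ⟨⟨hbx, hc, hL⟩, hp⟩, rfl⟩
      · have hmv : Rch Y col σ ((Equiv.swap b x).trans σ) := move' hp hc
        have hb'b : b' ≠ b := hD.1.symm
        have hb'x : b' ≠ x := fun e => hc (by rw [← e]; exact hD.2.1)
        have e1 : ((Equiv.swap b x).trans σ) b = σ x := by simp
        have e2 : ((Equiv.swap b x).trans σ) b' = σ b' := by
          simp [Equiv.swap_apply_of_ne_of_ne hb'b hb'x]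
        have hD' : D Y col ((Equiv.swap b x).trans σ) b b' :=
          ⟨hD.1, hD.2.1, fun hL => hD.2.2 (hl1 _ σ b b' hmv.symm hD.2.1 hL)⟩
        obtain ⟨τ, b₁, b₁', k1, k2, k3⟩ := ih _ b b' hD' (by rw [e1, e2]; omega)
        exact ⟨τ, b₁, b₁', hmv.trans k1, k2, k3⟩
  intro σ b b' hD
  exact key _ σ b b' hD le_rfl

end Pool.Agent.H230.FS83
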